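import Pool.Agent.H83.V.FV
import Pool.Agent.H79.LF.DVS

/-!
# MP_c59857_nt (THEOREM V): row RSQ of the board `lvv_modules` (the residue data)
-/

set_option autoImplicit false

open MeasureTheory ProbabilityTheory Filter Topology Finset
open scoped Nat ENNReal

namespace Pool.Agent.H79.V

open Pool.Agent.H28.LF (LX Xi LY Yi shX shY btY flY xiY CompY)
open Pool.Agent.H83.V
open Pool.Agent.H79.LF (flY_meas)

/-- the residue of a point with a divisible shift -/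
theorem rsq_spec (w : ℕ) (ω : Yi) (d : Fin (w + 1)) (hd : (d : ℕ).Prime)
    (hex : ∃ i : ℕ, i < (d : ℕ) ^ 2 ∧ shY^[i] ω ∈ flY ((d : ℕ) ^ 2)) :
    ((rsq w ω d : ℕ) < (d : ℕ) ^ 2 ∧ shY^[(rsq w ω d : ℕ)] ω ∈ flY ((d : ℕ) ^ 2)) ∧
      ∀ j : ℕ, j < (rsq w ω d : ℕ) → ¬ (j < (d : ℕ) ^ 2 ∧ shY^[j] ω ∈ flY ((d : ℕ) ^ 2)) := by
  classical
  have h0 : (rsq w ω d : ℕ) = Nat.find hex := by
    unfold rsq
    rw [dif_pos ⟨hd, hex⟩]
  rw [h0]
  exact ⟨Nat.find_spec hex, fun j hj => Nat.find_min hex hj⟩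

theorem rsq_zero (w : ℕ) (ω : Yi) (d : Fin (w + 1))
    (h : ¬ ((d : ℕ).Prime ∧ ∃ i : ℕ, i < (d : ℕ) ^ 2 ∧ shY^[i] ω ∈ flY ((d : ℕ) ^ 2))) :
    rsq w ω d = 0 := by
  classical
  unfold rsq
  rw [dif_neg h]

theorem it_meas (i d : ℕ) : MeasurableSet {ω : Yi | shY^[i] ω ∈ flY d} :=
  (shY.measurable.iterate i) (flY_meas d)

open Classical in
theorem rsq_meas (w : ℕ) : Measurable (rsq w) := by
  refine measurable_pi_iff.2 fun d => ?_
  by_cases hd : (d : ℕ).Prime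
  · -- the hit pattern
    let g : Yi → Fin ((d : ℕ) ^ 2) → Bool := fun ω i => decide (shY^[(i : ℕ)] ω ∈ flY ((d : ℕ) ^ 2))
    have hg : Measurable g := by
      refine measurable_pi_iff.2 fun i => ?_
      refine measurable_to_bool ?_
      have : (fun ω => g ω i) ⁻¹' {true} = {ω : Yi | shY^[(i : ℕ)] ω ∈ flY ((d : ℕ) ^ 2)} := by
        ext ω
        simp [g]
      rw [this]
      exact it_meas _ _
    have hf : Function.FactorsThrough (fun ω => rsq w ω d) g := by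
      intro ω ω' h
      have hiff : ∀ i : ℕ, i < (d : ℕ) ^ 2 →
          (shY^[i] ω ∈ flY ((d : ℕ) ^ 2) ↔ shY^[i] ω' ∈ flY ((d : ℕ) ^ 2)) := by
        intro i hi
        have := congrFun h ⟨i, hi⟩
        simpa [g] using this
      by_cases hex : ∃ i : ℕ, i < (d : ℕ) ^ 2 ∧ shY^[i] ω ∈ flY ((d : ℕ) ^ 2)
      · have hex' : ∃ i : ℕ, i < (d : ℕ) ^ 2 ∧ shY^[i] ω' ∈ flY ((d : ℕ) ^ 2) := by
          obtain ⟨i, hi, h1⟩ := hex
          exact ⟨i, hi, (hiff i hi).1 h1⟩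
        obtain ⟨⟨a1, a2⟩, a3⟩ := rsq_spec w ω d hd hex
        obtain ⟨⟨b1, b2⟩, b3⟩ := rsq_spec w ω' d hd hex'
        apply Fin.ext
        rcases lt_trichotomy (rsq w ω d : ℕ) (rsq w ω' d : ℕ) with h1 | h1 | h1
        · exact absurd ⟨a1, (hiff _ a1).1 a2⟩ (b3 _ h1)
        · exact h1
        · exact absurd ⟨b1, (hiff _ b1).2 b2⟩ (a3 _ h1)
      · have hex' : ¬ ∃ i : ℕ, i < (d : ℕ) ^ 2 ∧ shY^[i] ω' ∈ flY ((d : ℕ) ^ 2) := by
          rintro ⟨i, hi, h1⟩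
          exact hex ⟨i, hi, (hiff i hi).2 h1⟩
        show rsq w ω d = rsq w ω' d
        rw [rsq_zero w ω d fun h => hex h.2, rsq_zero w ω' d fun h => hex' h.2]
    obtain ⟨e, he⟩ := (Function.factorsThrough_iff _).1 hf
    have : (fun ω => rsq w ω d) = e ∘ g := he
    rw [this]
    exact (measurable_of_countable e).comp hg
  · have : (fun ω => rsq w ω d) = fun _ => 0 := by
      funext ω
      exact rsq_zero w ω d fun h => hd h.1
    rw [this]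
    exact measurable_const

theorem pf_RSQ : T_RSQ := by
  intro w ν h
  refine ⟨rsq_meas w, ?_⟩
  have hmp : MeasurePreserving shY ν ν := h.erg.toMeasurePreserving
  have h1 : ∀ᵐ ω ∂ν, ∀ k : ℕ, ∀ D : ℕ, 0 < D → (shY^[k] ω ∈ flY D ↔ shY^[D] (shY^[k] ω) ∈ flY D) ∧
      ∃! i : ℕ, i < D ∧ shY^[i] (shY^[k] ω) ∈ flY D := by
    rw [ae_all_iff]
    intro k
    rw [ae_all_iff]
    intro D
    by_cases hD : 0 < D
    · filter_upwards [(hmp.iterate k).quasiMeasurePreserving.ae (h.per D hD)] with ω hω _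
      exact hω
    · exact Eventually.of_forall fun ω hD' => absurd hD' hD
  filter_upwards [h1] with ω hω k
  refine ⟨fun d hd => ?_, fun d hd => rsq_zero w _ d fun h => hd h.1⟩
  have hD : 0 < (d : ℕ) ^ 2 := pow_pos hd.pos 2
  -- the hits of the point are periodic
  have hper : ∀ j : ℕ, (shY^[j] ω ∈ flY ((d : ℕ) ^ 2) ↔
      shY^[j + (d : ℕ) ^ 2] ω ∈ flY ((d : ℕ) ^ 2)) := by
    intro j
    have := (hω j ((d : ℕ) ^ 2) hD).1
    rwa [← Function.iterate_add_apply, add_comm ((d : ℕ) ^ 2) j] at this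
  have hmod : ∀ q j : ℕ, (shY^[j] ω ∈ flY ((d : ℕ) ^ 2) ↔
      shY^[j + (d : ℕ) ^ 2 * q] ω ∈ flY ((d : ℕ) ^ 2)) := by
    intro q
    induction q with
    | zero => intro j; simp
    | succ q ih =>
      intro j
      rw [ih j, hper (j + (d : ℕ) ^ 2 * q), mul_add, mul_one, add_assoc]
  have hk := hω k ((d : ℕ) ^ 2) hD
  have h0 := hω 0 ((d : ℕ) ^ 2) hD
  obtain ⟨⟨a1, a2⟩, -⟩ := rsq_spec w (shY^[k] ω) d hd hk.2.exists
  obtain ⟨⟨b1, b2⟩, -⟩ := rsq_spec w ω d hd h0.2.exists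
  refine ⟨a1, ?_⟩
  rw [← Function.iterate_add_apply] at a2
  have h3 : shY^[((rsq w (shY^[k] ω) d : ℕ) + k) % (d : ℕ) ^ 2] ω ∈ flY ((d : ℕ) ^ 2) := by
    rw [hmod (((rsq w (shY^[k] ω) d : ℕ) + k) / (d : ℕ) ^ 2), Nat.mod_add_div]
    exact a2
  have h4 := h0.2.unique ⟨Nat.mod_lt ((rsq w (shY^[k] ω) d : ℕ) + k) hD, h3⟩ ⟨b1, b2⟩
  unfold Nat.ModEq
  rw [h4, Nat.mod_eq_of_lt b1]

end Pool.Agent.H79.V
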