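import Pool.Agent.H83.V.T3
import Pool.Agent.H40.AG.Base

/-!
Theorem V (`MP_c59857_nt`, `MP_34b97f_an`): row W4, a reference close to the last point is found.
-/

set_option autoImplicit false
set_option linter.unusedSectionVars false

open MeasureTheory ProbabilityTheory Filter Topology Finset
open scoped Nat ENNReal

namespace Pool.Agent.H79.V

open Pool.Agent.H83.V
open Pool.Agent.H67.AG (avgP ul Inv Rt Av SA kap JJ TT InvZ nxt triv tow XN PN TN XX PX TX prX Fac)
open Pool.Agent.H40.AG (QQ dg)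

theorem TT_it {X : Type} [MeasurableSpace X] (T : X ≃ᵐ X) (l : ℕ) (p : X × X) :
    (TT T)^[l] p = (T^[l] p.1, T^[l] p.2) := by
  induction l generalizing p with
  | zero => rfl
  | succ l ih =>
    rw [Function.iterate_succ_apply, Function.iterate_succ_apply, Function.iterate_succ_apply, ih]
    rfl

section basic

variable (c : Vx)

theorem wd_meas (L : ℕ) : Measurable (c.wd L) :=
  measurable_pi_iff.2 fun l => c.am.comp (c.T.measurable.iterate (l : ℕ))

theorem mm_meas : Measurable c.mm := by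
  unfold Vx.mm
  exact Measurable.ite (measurableSet_eq_fun (c.am.comp measurable_fst)
    (c.am.comp measurable_snd)) measurable_const measurable_const

theorem av_meas {Ω : Type} [MeasurableSpace Ω] (T : Ω ≃ᵐ Ω) (W n : ℕ) (f : Ω → ℝ)
    (hf : Measurable f) : Measurable (Av T W n f) := by
  unfold Av
  refine Measurable.div_const (Finset.measurable_fun_sum _ fun l _ => hf.comp ?_) _
  exact T.measurable.iterate _

theorem M_meas : Measurable c.M := by
  unfold Vx.M
  exact Measurable.limsup fun n => av_meas (TT c.T) 1 n c.mm (mm_meas c)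

theorem wa_meas (l n : ℕ) : Measurable (c.wa l n) := by
  unfold Vx.wa
  exact (av_meas (TT c.T) 1 n c.mm (mm_meas c)).comp ((TT c.T).measurable.iterate l)

theorem Ec_meas : MeasurableSet c.Ec :=
  measurableSet_le (M_meas c) measurable_const

/-- the frequency of the mismatches of two words as an average -/
theorem hd_wa (Λ : ℕ) (x x' : c.X) : c.hd (c.wd Λ x) (c.wd Λ x') = c.wa 0 Λ (x, x') := by
  unfold Vx.hd Vx.wa Av
  congr 1
  rw [Finset.card_filter, Nat.cast_sum, ← Fin.sum_univ_eq_sum_range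
    (fun l => c.mm ((TT c.T)^[1 * l] ((TT c.T)^[0] (x, x')))) Λ]
  refine Finset.sum_congr rfl fun l _ => ?_
  rw [one_mul, Function.iterate_zero_apply, TT_it]
  unfold Vx.mm Vx.wd
  by_cases h : c.a (c.T^[(l : ℕ)] x) = c.a (c.T^[(l : ℕ)] x')
  · simp [h]
  · simp [h]

end basic

theorem pf_W4 (hR : Pool.Agent.H40.AG.T_RPC) (hC : Pool.Agent.H40.AG.T_NCO)
    (hdg : Pool.Agent.H40.AG.T_DGJ) (hpxl : Pool.Agent.H40.AG.T_PXL) : T_W4 := by
  intro c Z c₀ L n R _ θ θ' hZ hL hc0 hc1 hmass hfst hsnd hrep hwa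
  classical
  have hdgp := hdg c.X c.μ Z
  have : IsProbabilityMeasure (dg c.μ) := hdgp.1
  have hpx := hpxl c.X c.μ Z (n + 1) (dg c.μ) hdgp.2.1 hdgp.2.2.1
  have hPp : IsProbabilityMeasure (PX c.μ Z (n + 1) (dg c.μ)) := hpx.1
  have hBm : ∀ v : Fin L → Fin c.q, MeasurableSet
      {p : XN c.X (n + 1) | ∀ b, 2 * c.ulo < c.hd (c.wd L (p.2 b)) v} := by
    intro v
    have h3 : {p : XN c.X (n + 1) | ∀ b, 2 * c.ulo < c.hd (c.wd L (p.2 b)) v} =
        ⋂ b, {p : XN c.X (n + 1) | c.wd L (p.2 b) ∈ {w | 2 * c.ulo < c.hd w v}} := by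
      ext p
      simp only [Set.mem_ofPred_eq, Set.mem_iInter]
    rw [h3]
    refine MeasurableSet.iInter fun b => ?_
    have h4 : Measurable fun p : XN c.X (n + 1) => c.wd L (p.2 b) :=
      (wd_meas c L).comp ((measurable_pi_apply b).comp measurable_snd)
    exact h4 (Set.toFinite _).measurableSet
  have h1 := hR c.X c.μ Z (n + 1) R (Fin L → Fin c.q) (c.wd L)
    (fun v => {p : XN c.X (n + 1) | ∀ b, 2 * c.ulo < c.hd (c.wd L (p.2 b)) v}) hfst
    (fun v => (wd_meas c L) (measurableSet_singleton v)) hBm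
  have hset : {q : XX c.X (n + 1) | (q.1.1, q.2.1) ∈
      {p : XN c.X (n + 1) | ∀ b, 2 * c.ulo < c.hd (c.wd L (p.2 b)) (c.wd L q.2.2)}} =
      c.NF L n := rfl
  rw [hset] at h1
  have h2 := hC c.X c.μ Z (n + 1) c.Ec Set.univ c₀ (Ec_meas c) MeasurableSet.univ hc0.le hc1
    (hmass.mono fun x hx _ => hx)
  -- the pairs with a wrong average
  set D : Set (c.X × c.X) := {p | c.ulo < |c.wa 0 L p - c.M p|} with hD
  have hDm : MeasurableSet D :=
    measurableSet_lt measurable_const ((wa_meas c 0 L).sub (M_meas c)).abs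
  have h5 : ∀ b : Fin (n + 1), (PX c.μ Z (n + 1) (dg c.μ)).real
      {q : XX c.X (n + 1) | (q.2.1 b, q.2.2) ∈ D} ≤ θ' := by
    intro b
    have h6 := (hpx.2.2.2.1 b).measureReal_preimage hDm.nullMeasurableSet
    rw [hdgp.2.2.2] at h6
    exact h6.le.trans hwa
  have h3 : (PX c.μ Z (n + 1) (dg c.μ)).real (c.NF L n) ≤
      (PX c.μ Z (n + 1) (dg c.μ)).real
        {q | q.2.2 ∈ Set.univ ∧ ∀ b, (q.2.1 b, q.2.2) ∉ c.Ec} + ((n : ℝ) + 1) * θ' := by
    have hsub : c.NF L n ⊆ {q : XX c.X (n + 1) | q.2.2 ∈ Set.univ ∧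
        ∀ b, (q.2.1 b, q.2.2) ∉ c.Ec} ∪ ⋃ b, {q : XX c.X (n + 1) | (q.2.1 b, q.2.2) ∈ D} := by
      intro q hq
      by_cases hall : ∀ b, (q.2.1 b, q.2.2) ∉ c.Ec
      · exact Or.inl ⟨Set.mem_univ _, hall⟩
      · push Not at hall
        obtain ⟨b, hb⟩ := hall
        refine Or.inr (Set.mem_iUnion.2 ⟨b, ?_⟩)
        have h7 : 2 * c.ulo < c.hd (c.wd L (q.2.1 b)) (c.wd L q.2.2) := hq b
        rw [hd_wa] at h7
        have h8 : c.M (q.2.1 b, q.2.2) ≤ c.ulo := hb
        change c.ulo < |c.wa 0 L (q.2.1 b, q.2.2) - c.M (q.2.1 b, q.2.2)|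
        have h9 := le_abs_self (c.wa 0 L (q.2.1 b, q.2.2) - c.M (q.2.1 b, q.2.2))
        linarith
    refine (measureReal_mono hsub).trans ((measureReal_union_le _ _).trans ?_)
    refine add_le_add le_rfl ((measureReal_iUnion_fintype_le _).trans ?_)
    calc ∑ b : Fin (n + 1), (PX c.μ Z (n + 1) (dg c.μ)).real
          {q : XX c.X (n + 1) | (q.2.1 b, q.2.2) ∈ D} ≤ ∑ _b : Fin (n + 1), θ' :=
          Finset.sum_le_sum fun b _ => h5 b
      _ = ((n : ℝ) + 1) * θ' := by
          rw [Finset.sum_const, card_univ, Fintype.card_fin, nsmul_eq_mul]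
          push_cast
          ring
  exact h1.trans (add_le_add (h3.trans (add_le_add h2 le_rfl)) hrep)

end Pool.Agent.H79.V
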